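import Pool.Agent.helper4.PR.SpecF

/-!
# Row prf:fNTP (MP_70a088_an): the pigeonhole (helper6; same argument as PL.fNTP)
-/

set_option autoImplicit false

open Complex Metric Set Filter Topology MeasureTheory
open HY (UD T S hd UN RM)
open RT (Dyn it Hon PB VC Lv UC TD rm lf cr pd bl gr hdf Lf IB)
open RB (VL LO FLS FL CLS FR TL TLL INN WIN DRT)
open PL (DK ht tr SUBH INR)
open CVL

noncomputable section

namespace PR1

theorem fNTP (hREL : fREL_stmt) : fNTP_stmt := by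
  classical
  intro Y s hY μ hμ U hTHR
  have key : ∀ n : ℕ, ∃ S : Finset ℂ, S ⊆ Y.CP ∧ S.card = n ∧ ∃ φ : ℝ, 0 < φ ∧
      ∀ (x : ℕ → ℂ) (H w : ℕ → ℕ) (χ χ' G : ℂ → ℂ) (p q c : ℂ) (κ ε : ℝ), DA Y s μ x U H w χ χ' G p q c κ ε → ε < φ → c ∉ S := by
    intro n
    induction n with
    | zero =>
      exact ⟨∅, by simp, by simp, 1, one_pos, fun _ _ _ _ _ _ _ _ _ _ _ _ _ => by simp⟩
    | succ n ih =>
      obtain ⟨S, hSs, hSc, φ, hφ, hQ⟩ := ih
      obtain ⟨x, H, w, χ, χ', G, p, q, c, κ, hDA⟩ := hTHR (φ / 2) (by linarith)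
      have hcS : c ∉ S := hQ x H w χ χ' G p q c κ (φ / 2) hDA (by linarith)
      obtain ⟨φ', hφ', hR⟩ := hREL Y s hY μ hμ x U H w χ χ' G p q c κ (φ / 2) hDA
      refine ⟨insert c S, ?_, ?_, min φ φ', lt_min hφ hφ', ?_⟩
      · intro y hy
        rcases Finset.mem_insert.1 hy with h | h
        · rw [h]; exact hDA.cc
        · exact hSs h
      · rw [Finset.card_insert_of_notMem hcS, hSc]
      · intro x₁ H₁ w₁ χ₁ χ₁' G₁ p₁ q₁ c₁ κ₁ ε₁ hDA₁ hε₁ hmem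
        rcases Finset.mem_insert.1 hmem with h | h
        · subst h
          have := hR x₁ H₁ w₁ χ₁ χ₁' G₁ p₁ q₁ κ₁ ε₁ hDA₁
          exact absurd (hε₁.trans_le (min_le_right _ _)) (not_lt.2 this)
        · exact hQ x₁ H₁ w₁ χ₁ χ₁' G₁ p₁ q₁ c₁ κ₁ ε₁ hDA₁ (hε₁.trans_le (min_le_left _ _)) h
  obtain ⟨S, hSs, hSc, -⟩ := key (Y.CP.card + 1)
  have := Finset.card_le_card hSs
  omega

end PR1
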